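import Mathlib

set_option autoImplicit false
open Filter Topology Polynomial Finset

namespace Pool.Agent.H.MP_85987b_pr

def T (q : ℕ → ℝ) (k : ℕ) : ℝ :=
  ∑ x ∈ antidiagonal (k + 1), q x.1 * q x.2 + if k = 0 then q 0 ^ 2 else 0

noncomputable def S (P : ℝ[X]) : ℝ[X] := divX (P * P) + C (P.coeff 0 ^ 2)

lemma S_coeff (P : ℝ[X]) : (S P).coeff = T P.coeff := by
  ext k; simp only [S, T, coeff_divX, coeff_mul, coeff_C, coeff_add]

lemma T_nn {q : ℕ → ℝ} (h : ∀ k, 0 ≤ q k) (k : ℕ) : 0 ≤ T q k :=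
  add_nonneg (sum_nonneg fun x _ => mul_nonneg (h _) (h _)) (by split_ifs <;> positivity)

lemma T_le {p q : ℕ → ℝ} {l : ℝ} (hl : 0 ≤ l) (h : ∀ k, 0 ≤ q k) (e : ∀ k, l * q k ≤ p k) (k : ℕ) :
    l ^ 2 * T q k ≤ T p k := by
  have a : ∀ i j, l ^ 2 * (q i * q j) ≤ p i * p j := fun i j =>
    (mul_le_mul (e i) (e j) (mul_nonneg hl (h j)) ((mul_nonneg hl (h i)).trans (e i))).trans_eq'
      (by ring)
  rw [T, T, mul_add, mul_sum]
  refine add_le_add (sum_le_sum fun x _ => a _ _) ?_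
  split_ifs
  · simpa [sq] using a 0 0
  · simp

lemma T_sum {q : ℕ → ℝ} (h : Summable q) : Summable (T q) :=
  ((summable_nat_add_iff 1).2 (summable_norm_sum_mul_antidiagonal_of_summable_norm h.norm
    h.norm).of_norm).add (hasSum_ite_eq 0 _).summable

lemma T_fin (q : ℕ → ℝ) (k : ℕ) : T q k = (∑ x : Fin 2 → Fin (k + 2),
    if (∑ i, (x i : ℕ)) = k + 1 then ∏ i, q (x i) else 0) + if k = 0 then q 0 ^ 2 else 0 := by
  rw [T, ← sum_filter]
  congr 1
  symm
  refine sum_bij (fun x _ => ((x 0 : ℕ), (x 1 : ℕ))) (fun x h => by simpa using h)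
    (fun x _ y _ h => ?_) (fun y h => ?_) fun x _ => by simp
  · simp only [Prod.mk.injEq] at h
    ext i; fin_cases i; exacts [h.1, h.2]
  · rw [HasAntidiagonal.mem_antidiagonal] at h
    exact ⟨![⟨y.1, by omega⟩, ⟨y.2, by omega⟩], by simpa using h, rfl⟩

def Good (P : ℝ[X]) : Prop := (∀ k, 0 ≤ P.coeff k) ∧ P.eval 1 = 1

lemma S_eval (P : ℝ[X]) (s : ℝ) :
    s * (S P).eval s = P.eval s ^ 2 + (s - 1) * P.coeff 0 ^ 2 ∧
    s * (S P).derivative.eval s = 2 * P.eval s * P.derivative.eval s - (S P).eval s +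
      P.coeff 0 ^ 2 := by
  have e := X_mul_divX_add (P * P)
  have a := congrArg (eval s) e
  have b := congrArg (fun Q => eval s (derivative Q)) e
  simp [S, -map_pow] at a b ⊢
  constructor <;> linarith

lemma Good.S {P : ℝ[X]} (h : Good P) : Good (S P) :=
  ⟨S_coeff P ▸ T_nn h.1, by simpa [h.2] using (S_eval P 1).1⟩

lemma facts {P : ℝ[X]} (h : Good P) {s : ℝ} (hs : 2 ≤ s) :
    1 ≤ P.eval s ∧ P.eval s - (s - 1) * (s * P.derivative.eval s) ≤ 1 ∧
    P.eval s - 1 ≤ s * P.derivative.eval s ∧ 1 - P.coeff 0 ≤ P.eval s - 1 ∧ P.coeff 0 ≤ 1 := by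
  have e : s * P.derivative.eval s = ∑ k ∈ P.support, P.coeff k * (k * s ^ k) := by
    rw [derivative_eval, Polynomial.sum, mul_sum]
    refine sum_congr rfl fun k _ => ?_
    cases k <;> simp; ring
  have m : ∀ f g : ℕ → ℝ, (∀ k, f k ≤ g k) → ∑ k ∈ P.support, P.coeff k * f k ≤
      ∑ k ∈ P.support, P.coeff k * g k := fun f g e =>
    sum_le_sum fun k _ => mul_le_mul_of_nonneg_left (e k) (h.1 k)
  have h1 := h.2
  rw [coeff_zero_eq_eval_zero, e]
  simp only [eval_eq_sum, Polynomial.sum] at h1 ⊢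
  have p : ∀ k : ℕ, 1 ≤ s ^ k := fun k => one_le_pow₀ (by linarith)
  have q : ∀ k : ℕ, (0:ℝ) ≤ k := fun k => k.cast_nonneg
  have a1 := m (fun k => 1 ^ k) (fun k => s ^ k) fun k => by simp [p]
  have a2 := m (fun k => s ^ k - (s - 1) * (k * s ^ k)) (fun k => 1 ^ k) fun k => by
    cases k
    · simp
    · next k =>
      have := p (k + 1); have := q k
      push_cast
      rw [one_pow]
      nlinarith [mul_nonneg (mul_nonneg (sub_nonneg.2 hs) (q k)) (zero_le_one.trans (p (k + 1)))]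
  have a3 := m (fun k => s ^ k - 1 ^ k) (fun k => k * s ^ k) fun k => by
    cases k
    · simp
    · next k => have := p (k + 1); have := q k; push_cast; rw [one_pow]; nlinarith
  have a4 := m (fun k => 1 ^ k - 0 ^ k) (fun k => s ^ k - 1 ^ k) fun k => by
    cases k
    · simp
    · next k => have := p k; simp only [one_pow, pow_succ, mul_zero]; nlinarith
  have a5 := m (fun k => 0 ^ k) (fun k => 1 ^ k) fun k => by gcongr; norm_num
  simp only [mul_sub, sum_sub_distrib, h1, mul_left_comm _ (s - 1), ← mul_sum] at a1 a2 a3 a4 a5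
  exact ⟨a1, a2, a3, a4, a5⟩

lemma decay {P : ℝ[X]} (h : Good P) (h2 : 2 * P.derivative.eval 2 < P.eval 2) (N : ℕ) :
    ∃ n ≥ N, (n:ℝ) ^ 2 * (1 - (S^[n] P).coeff 0) ≤ 1 / 2 := by
  obtain ⟨s, s1, s2⟩ : ∃ s : ℝ, (s - 1) * (s * P.derivative.eval s) < P.eval s ∧ 2 < s :=
    (((ContinuousAt.eventually_lt (f := fun s : ℝ => (s - 1) * (s * P.derivative.eval s))
      (g := fun s => P.eval s) (x₀ := 2) (by fun_prop) (by fun_prop) (by norm_num; exact h2)).filter_mono
      nhdsWithin_le_nhds).and (self_mem_nhdsWithin (s := Set.Ioi 2))).exists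
  have g : ∀ n, Good (S^[n] P) := fun n => by
    induction n with
    | zero => exact h
    | succ n ih => rw [Function.iterate_succ_apply']; exact ih.S
  have f := fun n => facts (g n) s2.le
  have r := fun n => S_eval (S^[n] P) s
  have c0 := fun n => (g n).1 0
  simp only [← Function.iterate_succ_apply' S] at r
  generalize hH : (fun n => (S^[n] P).eval s) = H
  generalize hD : (fun n => (S^[n] P).derivative.eval s) = D
  generalize hc : (fun n => (S^[n] P).coeff 0) = c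
  have s3 : (s - 1) * (s * D 0) < H 0 := by rw [← hH, ← hD]; exact s1
  simp only [fun n => congrFun hH n, fun n => congrFun hD n, fun n => congrFun hc n,
    Nat.succ_eq_add_one] at f r c0 ⊢
  have s0 : 0 < s := by linarith
  have D0 : ∀ n, 0 ≤ D n := fun n => by
    obtain ⟨a, -, b, -⟩ := f n
    exact nonneg_of_mul_nonneg_right (by linarith) s0
  have k0 : 0 < (s - 1) * (s - 2) := mul_pos (by linarith) (by linarith)
  have e : ∀ n, (s - 1) * (s - 2) * ∑ i ∈ range n, D i ≤ H n - (s - 1) * (s * D n) := fun n => by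
    induction n with
    | zero => simp; linarith
    | succ n ih =>
      have : H (n + 1) - (s - 1) * (s * D (n + 1)) =
          H n * (H n - (s - 1) * (s * D n) + (s - 1) * (s - 2) * D n) := by
        linear_combination (r n).1 - (s - 1) * (r n).2
      have a := mul_nonneg k0.le (sum_nonneg (s := range n) fun i _ => D0 i)
      have b := mul_nonneg k0.le (D0 n)
      rw [this, sum_range_succ, mul_add]
      nlinarith [(f n).1]
  have t : Tendsto (fun n => H n - 1) atTop (𝓝 0) := by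
    have := (summable_of_sum_range_le D0 (c := 1 / ((s - 1) * (s - 2))) fun n => by
      rw [le_div_iff₀' k0]; exact (e n).trans (f n).2.1).tendsto_atTop_zero.const_mul s
    rw [mul_zero] at this
    exact squeeze_zero (fun n => sub_nonneg.2 (f n).1) (fun n => (f n).2.2.1) this
  have u : Tendsto (fun n : ℕ => (1 + 1 / (n:ℝ)) ^ 2 * (2 + (H n - 1)) / s) atTop
      (𝓝 ((1 + 0) ^ 2 * (2 + 0) / s)) :=
    (((tendsto_one_div_atTop_nhds_zero_nat.const_add 1).pow 2).mul (t.const_add 2)).div_const s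
  obtain ⟨ρ, ρ1, ρ2⟩ := exists_between (show (1 + 0) ^ 2 * (2 + 0) / s < 1 by
    rw [div_lt_one s0]; linarith)
  have v : Summable fun n : ℕ => (n:ℝ) ^ 2 * (H n - 1) := by
    refine summable_of_ratio_norm_eventually_le ρ2 ?_
    filter_upwards [u.eventually_le_const ρ1, eventually_gt_atTop 0] with n a n0
    have b := sub_nonneg.2 (f n).1
    have b' := sub_nonneg.2 (f (n + 1)).1
    rw [Real.norm_of_nonneg (by positivity), Real.norm_of_nonneg (by positivity)]
    refine le_trans ?_ (mul_le_mul_of_nonneg_right a (by positivity))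
    have : c n ^ 2 ≤ 1 := pow_le_one₀ (c0 n) (f n).2.2.2.2
    have : H (n + 1) - 1 ≤ (2 + (H n - 1)) * (H n - 1) / s := by
      rw [le_div_iff₀ s0]; nlinarith [(r n).1]
    refine (mul_le_mul_of_nonneg_left this (by positivity)).trans (le_of_eq ?_)
    push_cast; field_simp
  obtain ⟨n, n1, n2⟩ := ((v.tendsto_atTop_zero.eventually_le_const
    (show (0:ℝ) < 1 / 2 by norm_num)).and (eventually_ge_atTop N)).exists
  exact ⟨n, n2, le_trans (mul_le_mul_of_nonneg_left (f n).2.2.2.1 (by positivity)) n1⟩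

noncomputable def η (j K : ℕ) : ℝ := (1 / 2) ^ j / 8 / (2 ^ K * (K - 1))

lemma η_le (j : ℕ) {K : ℕ} (h : 2 ≤ K) : 0 ≤ η j K ∧ η j K * 2 ^ K ≤ (1 / 2) ^ j / 8 ∧
    η j K * (2 ^ K * (K - 1)) = (1 / 2) ^ j / 8 := by
  have : (1:ℝ) ≤ K - 1 := by have : (2:ℝ) ≤ K := by exact_mod_cast h
                             linarith
  have a : 0 ≤ η j K := by unfold η; positivity
  have b : η j K * (2 ^ K * (K - 1)) = (1 / 2) ^ j / 8 := div_mul_cancel₀ _ (by positivity)
  refine ⟨a, ?_, b⟩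
  rw [← b, ← mul_assoc]
  exact le_mul_of_one_le_right (by positivity) this

noncomputable def Q (K : ℕ → ℕ) (j : ℕ) : ℝ[X] :=
  C (1 / 4) + C (3 / 4) * X + ∑ i ∈ range j, C (η i (K i)) * (X ^ K i - X)

lemma Q_co (K : ℕ → ℕ) (j k : ℕ) : (Q K j).coeff k = (if k = 0 then 1 / 4 else 0) +
    (if k = 1 then 3 / 4 - ∑ i ∈ range j, η i (K i) else 0) +
    ∑ i ∈ range j, if k = K i then η i (K i) else 0 := by
  simp only [Q, coeff_add, coeff_C, coeff_C_mul, finsetSum_coeff, coeff_sub, coeff_X_pow, coeff_X,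
    mul_sub, sum_sub_distrib, mul_ite, mul_one, mul_zero, eq_comm (a := 1)]
  split_ifs <;> simp <;> ring

lemma η_sum {K : ℕ → ℕ} {j : ℕ} (h : ∀ i < j, 2 ≤ K i) : ∑ i ∈ range j, η i (K i) ≤ 1 / 4 := by
  refine (sum_le_sum (g := fun i => (1 / 2) ^ i / 8) fun i hi => ?_).trans ?_
  · obtain ⟨a, b, -⟩ := η_le i (h i (mem_range.1 hi))
    exact (le_mul_of_one_le_right a (one_le_pow₀ one_le_two)).trans b
  · rw [← sum_div]; linarith [sum_geometric_two_le j]

lemma Q_good {K : ℕ → ℕ} {j : ℕ} (h : ∀ i < j, 2 ≤ K i) :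
    Good (Q K j) ∧ 2 * (Q K j).derivative.eval 2 < (Q K j).eval 2 := by
  refine ⟨⟨fun k => ?_, by simp [Q, eval_finsetSum]; norm_num⟩, ?_⟩
  · have := η_sum h
    rw [Q_co]
    refine add_nonneg (add_nonneg (by positivity) (by split_ifs <;> linarith))
      (sum_nonneg fun i hi => ?_)
    have := (η_le i (h i (mem_range.1 hi))).1
    positivity
  · suffices (Q K j).eval 2 - 2 * (Q K j).derivative.eval 2 = (1 / 2) ^ j / 4 by
      have : (0:ℝ) < (1 / 2) ^ j / 4 := by positivity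
      linarith
    induction j with
    | zero => simp [Q]; norm_num
    | succ j ih =>
      have a := (η_le j (h j j.lt_succ_self)).2.2
      have b := ih fun i hi => h i (by omega)
      obtain ⟨k, hk⟩ := Nat.exists_eq_add_of_le' (one_le_two.trans (h j j.lt_succ_self))
      rw [show Q K (j + 1) = Q K j + C (η j (K j)) * (X ^ K j - X) by
        simp only [Q, sum_range_succ, add_assoc]]
      rw [hk] at a ⊢
      simp at a b ⊢
      linear_combination b - a

lemma seq : ∃ K : ℕ → ℕ, StrictMono K ∧ (∀ j, 2 ≤ K j) ∧ ∀ j, ∃ n ≥ j, 3 * n + 4 ≤ K j ∧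
    (n:ℝ) ^ 2 * (1 - (S^[n] (Q K j)).coeff 0) ≤ 1 / 2 := by
  classical
  have : ∀ (P : ℝ[X]) (N : ℕ), ∃ n ≥ N, Good P ∧ 2 * P.derivative.eval 2 < P.eval 2 →
      (n:ℝ) ^ 2 * (1 - (S^[n] P).coeff 0) ≤ 1 / 2 := fun P N => by
    by_cases h : Good P ∧ 2 * P.derivative.eval 2 < P.eval 2
    · obtain ⟨n, a, b⟩ := decay h.1 h.2 N; exact ⟨n, a, fun _ => b⟩
    · exact ⟨N, le_rfl, fun k => absurd k h⟩
  choose F F1 F2 using this
  let st : ℕ → ℝ[X] × ℕ := fun j => Nat.rec (C (1 / 4) + C (3 / 4) * X, 0) (fun i x =>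
    (x.1 + C (η i (3 * F x.1 x.2 + 4)) * (X ^ (3 * F x.1 x.2 + 4) - X), 3 * F x.1 x.2 + 4)) j
  have e : ∀ j, (st j).1 = Q (fun j => (st (j + 1)).2) j := fun j => by
    induction j with
    | zero => simp [st, Q]
    | succ j ih => rw [Q, sum_range_succ, ← add_assoc, ← Q, ← ih]
  have m : ∀ j, (st (j + 1)).2 = 3 * F (st j).1 (st j).2 + 4 := fun j => rfl
  have m2 : StrictMono fun j => (st j).2 := strictMono_nat_of_lt_succ fun j => by
    have := F1 (st j).1 (st j).2
    rw [m]; omega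
  refine ⟨fun j => (st (j + 1)).2, fun i j h => m2 (Nat.succ_lt_succ h),
    fun j => (m j).ge.trans' (by omega),
    fun j => ⟨_, (m2.id_le j).trans (F1 (st j).1 _), (m j).ge, ?_⟩⟩
  rw [← e]
  exact F2 _ _ (e j ▸ Q_good fun i _ => by rw [m]; omega)

lemma main : ∃ p : ℕ → ℝ, (∀ k, 0 ≤ p k) ∧ HasSum p 1 ∧ 0 < p 0 ∧
    (∃ a, HasSum (fun k => p k * 2 ^ k) a ∧ HasSum (fun k : ℕ => k * p k * 2 ^ k) a) ∧
    ∃ᶠ n : ℕ in atTop, (n:ℝ) ^ 2 * (1 - T^[n] p 0) ≤ 1 := by
  obtain ⟨K, K1, K2, K3⟩ := seq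
  have η0 := fun j => (η_le j (K2 j)).1
  have g := hasSum_geometric_two.div_const 8
  have s1 := (Summable.of_nonneg_of_le (fun j => mul_nonneg (η0 j) (by positivity))
    (fun j => (η_le j (K2 j)).2.1) g.summable).hasSum
  have s0 : Summable fun j => η j (K j) := .of_nonneg_of_le η0
    (fun j => le_mul_of_one_le_right (η0 j) (one_le_pow₀ one_le_two)) s1.summable
  set e : ℕ → ℝ := Function.extend K (fun j => η j (K j)) 0 with he
  have e1 : ∀ j, e (K j) = η j (K j) := K1.injective.extend_apply _ _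
  have e2 : ∀ k ∉ Set.range K, e k = 0 := fun k h => Function.extend_apply' _ _ _ h
  have e0 : ∀ k, 0 ≤ e k := fun k => by
    by_cases h : k ∈ Set.range K
    · obtain ⟨j, rfl⟩ := h; rw [e1]; exact η0 j
    · rw [e2 k h]
  set R := ∑' j, η j (K j) with hR
  have R1 : R ≤ 1 / 4 := s0.tsum_le_of_sum_range_le fun j => η_sum fun i _ => K2 i
  let p : ℕ → ℝ := fun k => (if k = 0 then 1 / 4 else 0) + (if k = 1 then 3 / 4 - R else 0) + e k
  have p0 : ∀ k, 0 ≤ p k := fun k =>
    add_nonneg (add_nonneg (by positivity) (by split_ifs <;> linarith)) (e0 k)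
  have hs : ∀ (w : ℕ → ℝ) (a : ℝ), HasSum (fun j => η j (K j) * w (K j)) a →
      HasSum (fun k => p k * w k) (1 / 4 * w 0 + (3 / 4 - R) * w 1 + a) := fun w a h => by
    have := (K1.injective.hasSum_iff (f := fun k => e k * w k) (a := a)
      fun k h => by rw [e2 k h, zero_mul]).1 (by simpa only [Function.comp_def, e1] using h)
    refine (((hasSum_ite_eq 0 _).add (hasSum_ite_eq 1 _)).add this).congr' ?_ |>.trans le_rfl
    refine .of_forall fun s => sum_congr rfl fun k _ => ?_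
    simp only [p, add_mul, ite_mul, zero_mul]
    split_ifs <;> simp_all
  have b0 := hs (fun _ => 1) R (by simpa using s0.hasSum)
  have b1 := hs (fun k => 2 ^ k) _ s1
  have b2 := hs (fun k => 2 ^ k * (k - 1)) _ (by simpa only [(η_le _ (K2 _)).2.2] using g)
  refine ⟨p, p0, by simpa [show (4:ℝ)⁻¹ + (3 / 4 - R) + R = 1 by ring] using b0,
    add_pos_of_pos_of_nonneg (by simp) (e0 0), ⟨_, b1, ?_⟩, frequently_atTop.2 fun j => ?_⟩
  · have := b1.add b2
    norm_num at this ⊢
    exact this.congr' (.of_forall fun s => sum_congr rfl fun k _ => by ring) |>.trans le_rfl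
  obtain ⟨n, n1, n2, n3⟩ := K3 j
  refine ⟨n, n1, ?_⟩
  have t := s0.sum_add_tsum_nat_add j
  set τ := ∑' i, η (i + j) (K (i + j)) with hτ
  have τ0 : 0 ≤ τ := tsum_nonneg fun i => η0 _
  have τ1 : τ ≤ 2 / 8 / 8 ^ n := by
    refine hasSum_le (fun i => ?_) ((summable_nat_add_iff j).2 s0).hasSum (g.div_const (8 ^ n))
    rw [le_div_iff₀ (by positivity)]
    refine le_trans (mul_le_mul_of_nonneg_left ?_ (η0 _)) ((η_le _ (K2 _)).2.1.trans ?_)
    · rw [show (8:ℝ) = 2 ^ 3 by norm_num, ← pow_mul]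
      exact pow_le_pow_right₀ one_le_two (by have := K1.monotone (Nat.le_add_left j i); omega)
    · gcongr ?_ / 8
      exact pow_le_pow_of_le_one (by norm_num) (by norm_num) (by omega)
  have x1 : (1:ℝ) ≤ 2 ^ n := one_le_pow₀ one_le_two
  have x2 : (n:ℝ) ≤ 2 ^ n := by exact_mod_cast Nat.lt_two_pow_self.le
  rw [le_div_iff₀ (by positivity), show (8:ℝ) ^ n = (2 ^ n) ^ 3 by
    rw [← pow_mul, mul_comm, pow_mul]; norm_num] at τ1
  have τ2 : 0 ≤ 1 - 2 * τ := by nlinarith [one_le_pow₀ (n := 3) x1]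
  have gd : ∀ n, Good (S^[n] (Q K j)) := fun n => by
    induction n with
    | zero => exact (Q_good fun i _ => K2 i).1
    | succ n ih => rw [Function.iterate_succ_apply']; exact ih.S
  have d : ∀ n k, (1 - 2 * τ) ^ 2 ^ n * (S^[n] (Q K j)).coeff k ≤ T^[n] p k := fun n => by
    induction n with
    | zero =>
      intro k
      have a : ∑ i ∈ range j, (if k = K i then η i (K i) else 0) ≤ e k := by
        by_cases h : k ∈ Set.range K
        · obtain ⟨l, rfl⟩ := h
          simp only [K1.injective.eq_iff, sum_ite_eq, e1]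
          split_ifs; exacts [le_rfl, η0 l]
        · rw [sum_eq_zero fun i _ => if_neg fun c => h ⟨i, c.symm⟩]; exact e0 k
      have b : 0 ≤ ∑ i ∈ range j, (if k = K i then η i (K i) else 0) :=
        sum_nonneg fun i _ => by have := η0 i; positivity
      simp only [Function.iterate_zero, id, Q_co, p, pow_zero, pow_one]
      split_ifs <;> nlinarith [mul_nonneg τ0 b]
    | succ n ih =>
      intro k
      rw [Function.iterate_succ_apply', Function.iterate_succ_apply', S_coeff, pow_succ, pow_mul]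
      exact T_le (by positivity) (gd n).1 ih k
  have a := d n 0
  have b := one_add_mul_le_pow (show -2 ≤ -(2 * τ) by linarith) (2 ^ n)
  have c0 := (gd n).1 0
  have c1 := (facts (gd n) le_rfl).2.2.2.2
  rw [← sub_eq_add_neg] at b
  push_cast at b
  generalize (S^[n] (Q K j)).coeff 0 = c at *
  have y : 1 - T^[n] p 0 ≤ 1 - c + 2 ^ n * (2 * τ) := by
    nlinarith [mul_le_mul_of_nonneg_right b c0, mul_nonneg (mul_nonneg (zero_le_one.trans x1) τ0)
      (sub_nonneg.2 c1)]
  have z : (n:ℝ) ^ 2 * (2 ^ n * τ) ≤ (2 ^ n) ^ 2 * (2 ^ n * τ) := by gcongr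
  nlinarith [mul_le_mul_of_nonneg_left y (sq_nonneg (n:ℝ))]

end Pool.Agent.H.MP_85987b_pr
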